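import Pool.Agent.Q82.TQ.Gen

set_option autoImplicit false

/-!
# The types of line bundles on a primitive symplectic torus quotient: definitions
-/

namespace Pool.Agent.Q82.SZ

open Pool.Agent.W594.SYZ2 Pool.Agent.TH128.SYZ Pool.Agent.Q82.TQ

variable {V : Type*} [NormedAddCommGroup V] [NormedSpace ℂ V] {Γ : Subgroup (V ≃ᵃ[ℂ] V)}

/-- `M` is the inverse of the line bundle `L`. -/
def IsInverse (L M : LineBundle Γ) : Prop := ∀ γ v, L.e γ v * M.e γ v = 1

/-- `L` is numerically trivial, and `L ^ m` is trivial. -/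
structure IsTorsionType (L : LineBundle Γ) (H : V → V → ℂ) (m : ℕ) : Prop where
  zero : ∀ v w, H v w = 0
  trivial : (L.pow m).IsTrivial

/-- `L` is ample, and `L ^ m` is globally generated. -/
structure IsAmpleType (L : LineBundle Γ) (H : V → V → ℂ) (m : ℕ) : Prop where
  pos : IsPositiveForm H
  gg : IsGloballyGenerated (L.pow m)

/-- `L` is nef, not numerically trivial, `L ^ m` is globally generated, and `L` induces a holomorphic
Lagrangian fibration `V / Γ → ℂ^n / Δ`, given by a linear map `π` whose kernel is the kernel of the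
Chern form `H`. -/
structure IsLagrangianType (L : LineBundle Γ) (H : V → V → ℂ) (m : ℕ) : Prop where
  nef : IsNefForm H
  nonzero : ∃ v w, H v w ≠ 0
  gg : IsGloballyGenerated (L.pow m)
  fibration : ∃ (n : ℕ) (Δ : Subgroup ((Fin n → ℂ) ≃ᵃ[ℂ] (Fin n → ℂ))) (π : V →ₗ[ℂ] (Fin n → ℂ)),
    (∀ v, π v = 0 ↔ ∀ w, H v w = 0) ∧ IsLagrangianFibration Γ Δ π ∧ Induces L Δ π

/-- The Chern form `H` has signature `(n, n)`, `dim V = 2 n`: it is negative definite on `K`,
positive definite on `K'`, and `K` and `K'` are orthogonal for `H`, of dimension `n`, and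
`V = K ⊕ K'`.  Neither `L` nor its inverse `M` is pseudo-effective, and no
power of `L` or of `M` has a nonzero section. -/
structure IsIndefiniteType (L M : LineBundle Γ) (H : V → V → ℂ) : Prop where
  signature : ∃ K K' : Submodule ℂ V, IsCompl K K' ∧
    Module.finrank ℂ V = 2 * Module.finrank ℂ K ∧ Module.finrank ℂ V = 2 * Module.finrank ℂ K' ∧
    K ≠ ⊥ ∧ (∀ x ∈ K, ∀ y ∈ K', H x y = 0) ∧
    (∀ x ∈ K, x ≠ 0 → (H x x).re < 0) ∧ (∀ x ∈ K', x ≠ 0 → 0 < (H x x).re)
  notpsef : ¬ IsPseudoEffective L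
  notpsef_inv : ¬ IsPseudoEffective M
  section_zero : ∀ k : ℕ, 1 ≤ k → ∀ s, (L.pow k).IsSection s → s = 0
  section_zero_inv : ∀ k : ℕ, 1 ≤ k → ∀ s, (M.pow k).IsSection s → s = 0

end Pool.Agent.Q82.SZ
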