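import Pool.Agent.Q82.SZ.Tri
import Pool.Agent.Q82.SZ.SignDefs
import Pool.Agent.Q82.TQ.Num
import Pool.Agent.Q82.TQ.Adj

set_option autoImplicit false

/-!
# The sign of a line bundle on a primitive symplectic torus quotient
-/

namespace Pool.Agent.Q82.SZ

open Pool.Agent.W594.SYZ2 Pool.Agent.W594.SYZ2.TQ Pool.Agent.Y167
open Pool.Agent.TH128.SYZ Pool.Agent.TH735.AQ Pool.Agent.Q82.TQ


variable {V : Type*} [NormedAddCommGroup V] [NormedSpace ℂ V] [FiniteDimensional ℂ V]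
  {Γ : Subgroup (V ≃ᵃ[ℂ] V)} {H : V → V → ℂ}

theorem hOneZero (hΓ : IsPrimitiveSymplectic Γ) : HOneZero Γ := hΓ.h01

theorem no_section (hΓ : IsTorusQuotient Γ) {L : LineBundle Γ} (hc : IsChernForm L H)
    (hn : ¬ IsNefForm H) (k : ℕ) (hk : 1 ≤ k) (s : V → ℂ) (hs : (L.pow k).IsSection s) : s = 0 := by
  by_contra h0
  apply hn
  have h1 := nef_of_psef hΓ (chern_pow hc k) (psef_of_section hs h0)
  intro v
  have h2 := h1 v
  have e1 : ((k : ℂ) * H v v).re = k * (H v v).re := by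
    have : (k : ℂ) = ((k : ℝ) : ℂ) := by push_cast; rfl
    rw [this, Complex.re_ofReal_mul]
  rw [e1] at h2
  have h4 : (0 : ℝ) < k := by exact_mod_cast hk
  exact nonneg_of_mul_nonneg_right h2 h4

omit [FiniteDimensional ℂ V] in
theorem triv_of_dvd {L : LineBundle Γ} {a m : ℕ} (h : (L.pow a).IsTrivial) (hm : a ∣ m) :
    (L.pow m).IsTrivial := by
  obtain ⟨b, rfl⟩ := hm
  obtain ⟨s, hs, hne⟩ := h
  refine ⟨fun v => s v ^ b, ⟨hs.holo.pow b, fun γ v => ?_⟩, fun v => pow_ne_zero b (hne v)⟩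
  change s _ ^ b = L.e γ v ^ (a * b) * s v ^ b
  rw [hs.eq, mul_pow, pow_mul]
  rfl

theorem torsion_card (hΓ : IsPrimitiveSymplectic Γ) {L : LineBundle Γ} (hc : IsChernForm L H)
    (h0 : ∀ v w, H v w = 0) : (L.pow (Nat.card (Lin Γ) ^ 2)).IsTrivial := by
  obtain ⟨hH, F, hF, hFe⟩ := hc
  have hpot : IsPot L H F := ⟨hF, hFe⟩
  set M := Nat.card (Lin Γ) ^ 2 with hM
  refine ⟨fun v => Complex.exp (M * F v), ⟨?_, ?_⟩, fun v => Complex.exp_ne_zero _⟩
  · exact (hF.const_mul (M : ℂ)).cexp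
  · intro γ v
    have h1 := tw_pow hΓ hH hpot γ v (fun w => h0 _ w)
    rw [← pow_two, ← hM, tw, mul_pow, ← Complex.exp_nat_mul, mul_sub, Complex.exp_sub] at h1
    have h2 := Complex.exp_ne_zero (M * F ((γ : V ≃ᵃ[ℂ] V) v))
    have h3 : L.e γ v ^ M * Complex.exp (M * F v)
        = Complex.exp (M * F ((γ : V ≃ᵃ[ℂ] V) v)) := by
      field_simp at h1
      exact h1
    exact h3.symm

theorem ample_type (hΓ : IsPrimitiveSymplectic Γ) {L : LineBundle Γ} (hc : IsChernForm L H)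
    (hp : IsPositiveForm H) {m : ℕ} (hm : 4 * Nat.card (Lin Γ) ^ 5 ∣ m) : IsAmpleType L H m := by
  refine ⟨hp, gg_of_dvd (effective hΓ.torus (hOneZero hΓ) hc fun v => ?_) hm⟩
  by_cases hv : v = 0
  · rw [hv, h_zero_left hc.1]; simp
  · exact (hp v hv).le

theorem lagr_type (hΓ : IsPrimitiveSymplectic Γ) {L : LineBundle Γ} (hc : IsChernForm L H)
    (hn : IsNefForm H) (h0 : ∃ v w, H v w ≠ 0) (hd : IsDegenerateForm H)
    {m : ℕ} (hm : 4 * Nat.card (Lin Γ) ^ 5 ∣ m) : IsLagrangianType L H m :=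
  ⟨hn, h0, gg_of_dvd (effective hΓ.torus (hOneZero hΓ) hc hn) hm, (TQ.main hΓ L H hc hn hd).2 h0⟩

/-- The sign theorem. -/
theorem sign (hΓ : IsPrimitiveSymplectic Γ) {L : LineBundle Γ} (hc : IsChernForm L H)
    {m : ℕ} (hm : 4 * Nat.card (Lin Γ) ^ 5 ∣ m) :
    IsTorsionType L H m ∨ IsAmpleType L H m ∨ IsAmpleType (inv L) (fun v w => -H v w) m ∨
      IsLagrangianType L H m ∨ IsLagrangianType (inv L) (fun v w => -H v w) m ∨
      IsIndefiniteType L (inv L) H := by
  have hH := hc.1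
  have hc' := inv_chern hc
  rcases types hΓ hH (inv_of_chern hc) with h0 | h0 | h0 | ⟨K, K', hK, hd, hd', hne, -, -, ho, h1⟩
  · left
    refine ⟨h0, triv_of_dvd (torsion_card hΓ hc h0) (dvd_trans ?_ hm)⟩
    exact ⟨4 * Nat.card (Lin Γ) ^ 3, by ring⟩
  · right; left
    exact ample_type hΓ hc h0 hm
  · right; right; left
    exact ample_type hΓ hc' h0 hm
  have hdec : ∀ v : V, ∃ x ∈ K, ∃ y ∈ K', v = x + y := by
    intro v
    have h1 : v ∈ K ⊔ K' := by rw [hK.sup_eq_top]; trivial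
    obtain ⟨x, hx, y, hy, he⟩ := Submodule.mem_sup.1 h1
    exact ⟨x, hx, y, hy, he.symm⟩
  have hdiag : ∀ x ∈ K, ∀ y ∈ K', (H (x + y) (x + y)).re = (H x x).re + (H y y).re := by
    intro x hx y hy
    rw [h_diag_add hH, ho x hx y hy]
    simp
  have hVK : 0 < Module.finrank ℂ K := by
    rw [Module.finrank_pos_iff]
    obtain ⟨x, hx, hx0⟩ := (Submodule.ne_bot_iff K).1 hne
    exact ⟨⟨⟨x, hx⟩, 0, fun h => hx0 (congrArg Subtype.val h)⟩⟩
  have hex : ∃ x ∈ K, x ≠ 0 := (Submodule.ne_bot_iff K).1 hne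
  have hex' : ∃ x ∈ K', x ≠ 0 := by
    rw [← Submodule.ne_bot_iff]
    rintro rfl
    rw [finrank_bot] at hd'
    omega
  have h00 : (H 0 0).re = 0 := by rw [h_zero_left hH]; simp
  rcases h1 with ⟨hk, h2⟩ | ⟨h2, h3⟩
  · have hdeg : IsDegenerateForm H := by
      obtain ⟨x, hx, hx0⟩ := hex
      exact ⟨x, hx0, hk x hx⟩
    have hdeg' : IsDegenerateForm (fun v w => -H v w) := by
      obtain ⟨x, hx, hx0⟩ := hex
      exact ⟨x, hx0, fun w => by change -H x w = 0; rw [hk x hx, neg_zero]⟩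
    have hkk : ∀ x ∈ K, (H x x).re = 0 := fun x hx => by rw [hk x hx]; simp
    rcases h2 with h2 | h2
    · right; right; right; left
      refine lagr_type hΓ hc ?_ ?_ hdeg hm
      · intro v
        obtain ⟨x, hx, y, hy, rfl⟩ := hdec v
        rw [hdiag x hx y hy, hkk x hx, zero_add]
        by_cases hy0 : y = 0
        · rw [hy0, h00]
        · exact (h2 y hy hy0).le
      · obtain ⟨y, hy, hy0⟩ := hex'
        refine ⟨y, y, fun h => ?_⟩
        have := h2 y hy hy0
        rw [h] at this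
        simp at this
    · right; right; right; right; left
      refine lagr_type hΓ hc' ?_ ?_ hdeg' hm
      · intro v
        obtain ⟨x, hx, y, hy, rfl⟩ := hdec v
        change 0 ≤ (-H (x + y) (x + y)).re
        rw [Complex.neg_re, hdiag x hx y hy, hkk x hx, zero_add]
        by_cases hy0 : y = 0
        · rw [hy0, h00, neg_zero]
        · exact (neg_pos.2 (h2 y hy hy0)).le
      · obtain ⟨y, hy, hy0⟩ := hex'
        refine ⟨y, y, fun h => ?_⟩
        have := h2 y hy hy0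
        rw [neg_eq_zero] at h
        rw [h] at this
        simp at this
  · right; right; right; right; right
    have hn : ¬ IsNefForm H := by
      intro hn
      obtain ⟨x, hx, hx0⟩ := hex
      exact absurd (hn x) (not_le.2 (h2 x hx hx0))
    have hn' : ¬ IsNefForm (fun v w => -H v w) := by
      intro hn
      obtain ⟨x, hx, hx0⟩ := hex'
      have h4 := hn x
      rw [Complex.neg_re] at h4
      have := h3 x hx hx0
      linarith
    exact ⟨⟨K, K', hK, hd, hd', hne, ho, h2, h3⟩, fun h => hn (nef_of_psef hΓ.torus hc h),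
      fun h => hn' (nef_of_psef hΓ.torus hc' h), no_section hΓ.torus hc hn,
      no_section hΓ.torus hc' hn'⟩

theorem sign' (hΓ : IsPrimitiveSymplectic Γ) {L M : LineBundle Γ} (hc : IsChernForm L H)
    (hM : IsInverse L M) {m : ℕ} (hm : 4 * Nat.card (Lin Γ) ^ 5 ∣ m) :
    IsTorsionType L H m ∨ IsAmpleType L H m ∨ IsAmpleType M (fun v w => -H v w) m ∨
      IsLagrangianType L H m ∨ IsLagrangianType M (fun v w => -H v w) m ∨
      IsIndefiniteType L M H := by
  have h1 : M = inv L := by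
    apply lb_ext
    funext γ v
    exact eq_inv_of_mul_eq_one_right (hM γ v)
  rw [h1]
  exact sign hΓ hc hm

end Pool.Agent.Q82.SZ
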