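import Pool.Agent.W594.SYZ.TQ6
import Pool.Agent.Y167.Herm

set_option autoImplicit false

/-!
# Invariant hermitian forms on a primitive symplectic torus quotient

Relative to a positive definite invariant form `h`, an invariant hermitian form `H` has one
eigenvalue, or two eigenvalues of the same multiplicity `n`, `dim V = 2 n`, since the eigenspaces
are invariant and an invariant subspace is Lagrangian.
-/

namespace Pool.Agent.Q82.SZ

open Pool.Agent.W594.SYZ2 Pool.Agent.W594.SYZ2.TQ Pool.Agent.Y167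

variable {V : Type*} [NormedAddCommGroup V] [NormedSpace ℂ V]

/-- The form `H` is invariant under the linear parts of `Γ`. -/
def IsInvForm (Γ : Subgroup (V ≃ᵃ[ℂ] V)) (H : V → V → ℂ) : Prop :=
  ∀ γ ∈ Γ, ∀ v w, H (γ.linear v) (γ.linear w) = H v w

/-- `H = a h` on `K` and `H = b h` on `K'`, where `K` and `K'` are complementary
subspaces, of half the dimension, orthogonal to each other. -/
structure IsSplit (h H : V → V → ℂ) (a b : ℝ) (K K' : Submodule ℂ V) : Prop where
  compl : IsCompl K K'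
  dim : Module.finrank ℂ V = 2 * Module.finrank ℂ K
  dim' : Module.finrank ℂ V = 2 * Module.finrank ℂ K'
  orth : ∀ x ∈ K, ∀ y ∈ K', h x y = 0
  left : ∀ x ∈ K, ∀ w, H x w = a * h x w
  right : ∀ x ∈ K', ∀ w, H x w = b * h x w

variable [FiniteDimensional ℂ V] {Γ : Subgroup (V ≃ᵃ[ℂ] V)} {h H : V → V → ℂ}

/-- The operator `S` with `h (v, S w) = H (v, w)`. -/
theorem exists_op (hh : IsHermitian h) (hp : IsPositiveForm h) (hH : IsHermitian H) :
    ∃ S : V →ₗ[ℂ] V, ∀ v w, h v (S w) = H v w := by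
  have h1 : ∀ w, ∃ a, ∀ v, H v w = h v a := fun w => herm_riesz hh hp (hl hH w)
  choose S hS using h1
  refine ⟨⟨⟨S, ?_⟩, ?_⟩, fun v w => (hS w v).symm⟩
  · intro w w'
    refine herm_ext hh hp fun u => ?_
    rw [← hS, h_add_right hH, h_add_right hh, ← hS, ← hS]
  · intro c w
    refine herm_ext hh hp fun u => ?_
    rw [← hS, h_smul_right hH, RingHom.id_apply, h_smul_right hh, ← hS]

theorem op_symm (hh : IsHermitian h) (hH : IsHermitian H) {S : V →ₗ[ℂ] V}
    (hS : ∀ v w, h v (S w) = H v w) (v w : V) : h (S v) w = H v w := by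
  rw [hh.symm w (S v), hS, ← hH.symm]

theorem op_comm (hh : IsHermitian h) (hp : IsPositiveForm h) (hI : IsInvForm Γ h)
    (hJ : IsInvForm Γ H) {S : V →ₗ[ℂ] V}
    (hS : ∀ v w, h v (S w) = H v w) (γ : V ≃ᵃ[ℂ] V) (hγ : γ ∈ Γ) (v : V) :
    S (γ.linear v) = γ.linear (S v) := by
  refine herm_ext hh hp fun u => ?_
  rw [hS]
  obtain ⟨u', rfl⟩ := γ.linear.surjective u
  rw [hJ γ hγ, hI γ hγ, hS]

/-- Eigenvalues are real. -/
theorem eig_real (hh : IsHermitian h) (hp : IsPositiveForm h) (hH : IsHermitian H)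
    {S : V →ₗ[ℂ] V} (hS : ∀ v w, h v (S w) = H v w) {c : ℂ} {x : V} (hx : x ≠ 0)
    (hc : S x = c • x) : c = (c.re : ℂ) := by
  have h1 : h x (S x) = h (S x) x := by rw [hS, op_symm hh hH hS]
  rw [hc, h_smul_right hh, hh.smul_left] at h1
  have h2 : h x x ≠ 0 := by
    intro h0
    have := hp x hx
    rw [h0] at this
    simp at this
  have h3 := mul_right_cancel₀ h2 h1
  exact (Complex.conj_eq_iff_real.1 h3).elim fun r hr => by rw [hr, Complex.ofReal_re]

/-- One eigenvalue, or two of the same multiplicity. -/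
theorem split (hΓ : IsPrimitiveSymplectic Γ) (hV : ∃ v : V, v ≠ 0) (hh : IsHermitian h)
    (hp : IsPositiveForm h) (hI : IsInvForm Γ h) (hH : IsHermitian H) (hJ : IsInvForm Γ H) :
    (∃ c : ℝ, ∀ v w, H v w = c * h v w) ∨
      ∃ (a b : ℝ) (K K' : Submodule ℂ V), a < b ∧ IsSplit h H a b K K' ∧
        (∀ γ ∈ Γ, ∀ v ∈ K, γ.linear v ∈ K) ∧ (∀ γ ∈ Γ, ∀ v ∈ K', γ.linear v ∈ K') := by
  obtain ⟨S, hS⟩ := exists_op hh hp hH
  have hS' := op_symm hh hH hS
  have hcomm := op_comm hh hp hI hJ hS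
  have hnt : Nontrivial V := by
    obtain ⟨v, hv⟩ := hV
    exact ⟨⟨v, 0, hv⟩⟩
  have hEinv : ∀ c : ℂ, ∀ γ ∈ Γ, ∀ v ∈ Module.End.eigenspace S c,
      γ.linear v ∈ Module.End.eigenspace S c := by
    intro c γ hγ v hv
    rw [Module.End.mem_eigenspace_iff] at hv ⊢
    rw [hcomm γ hγ, hv, map_smul]
  obtain ⟨c, hc⟩ := Module.End.exists_eigenvalue S
  obtain ⟨x, hx⟩ := hc.exists_hasEigenvector
  have hxc : S x = c • x := hx.apply_eq_smul
  have hx0 : x ≠ 0 := hx.2
  have hcr := eig_real hh hp hH hS hx0 hxc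
  by_cases htop : Module.End.eigenspace S c = ⊤
  · left
    refine ⟨c.re, fun v w => ?_⟩
    have h1 : v ∈ Module.End.eigenspace S c := by rw [htop]; trivial
    rw [Module.End.mem_eigenspace_iff] at h1
    rw [← hS', h1, hh.smul_left, ← hcr]
  right
  -- a second eigenvector in the range of `S - c`
  let R : V →ₗ[ℂ] V := S - c • LinearMap.id
  have hR : ∀ v, R v = S v - c • v := fun v => rfl
  have hRS : ∀ v, S (R v) = R (S v) := by
    intro v
    rw [hR, hR, map_sub, map_smul]
  have hmaps : ∀ v ∈ LinearMap.range R, S v ∈ LinearMap.range R := by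
    rintro _ ⟨v, rfl⟩
    exact ⟨S v, (hRS v).symm⟩
  have hRne : Nontrivial (LinearMap.range R) := by
    obtain ⟨u, hu⟩ : ∃ u, u ∉ Module.End.eigenspace S c := by
      by_contra hall
      push Not at hall
      exact htop (eq_top_iff.2 fun v _ => hall v)
    refine ⟨⟨⟨R u, u, rfl⟩, 0, ?_⟩⟩
    intro h0
    apply hu
    rw [Module.End.mem_eigenspace_iff]
    have h1 : R u = 0 := congrArg Subtype.val h0
    rw [hR, sub_eq_zero] at h1
    exact h1
  obtain ⟨d, hd⟩ := Module.End.exists_eigenvalue (S.restrict hmaps)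
  obtain ⟨⟨y, hyR⟩, hy⟩ := hd.exists_hasEigenvector
  have hyd : S y = d • y := congrArg Subtype.val hy.apply_eq_smul
  have hy0 : y ≠ 0 := fun h0 => hy.2 (Subtype.ext h0)
  have hdr := eig_real hh hp hH hS hy0 hyd
  have hcd : d ≠ c := by
    intro hdc
    obtain ⟨z, hz⟩ := hyR
    have h1 : h z (S y) = h (S z) y := by rw [hS, hS']
    have h2 : h y y = 0 := by
      have h3 : h (R z) y = 0 := by
        rw [hR, h_sub_left hh, hh.smul_left, ← h1, hyd, h_smul_right hh, hdc]
        have h4 : starRingEnd ℂ c = c := by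
          rw [hcr, Complex.conj_ofReal]
        rw [h4, sub_self]
      rwa [hz] at h3
    have h5 := hp y hy0
    rw [h2] at h5
    simp at h5
  have hL : ∀ e : ℂ, (∃ x, x ≠ 0 ∧ S x = e • x) → Module.End.eigenspace S e ≠ ⊤ →
      Module.finrank ℂ V = 2 * Module.finrank ℂ (Module.End.eigenspace S e) := by
    rintro e ⟨x, hx0, hx⟩ hne
    refine (lagr hΓ _ (hEinv e) ?_ hne).2
    rw [Submodule.ne_bot_iff]
    exact ⟨x, Module.End.mem_eigenspace_iff.2 hx, hx0⟩
  have hdtop : Module.End.eigenspace S d ≠ ⊤ := by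
    intro h0
    have h1 : x ∈ Module.End.eigenspace S d := by rw [h0]; trivial
    rw [Module.End.mem_eigenspace_iff, hxc] at h1
    have h2 : (c - d) • x = 0 := by rw [sub_smul, h1, sub_self]
    rcases smul_eq_zero.1 h2 with h3 | h3
    · exact hcd (sub_eq_zero.1 h3).symm
    · exact hx0 h3
  have hdim := hL c ⟨x, hx0, hxc⟩ htop
  have hdim' := hL d ⟨y, hy0, hyd⟩ hdtop
  -- assembly for two eigenvalues
  have main : ∀ e f : ℂ, e = (e.re : ℂ) → f = (f.re : ℂ) → e ≠ f →
      Module.finrank ℂ V = 2 * Module.finrank ℂ (Module.End.eigenspace S e) →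
      Module.finrank ℂ V = 2 * Module.finrank ℂ (Module.End.eigenspace S f) →
      IsSplit h H e.re f.re (Module.End.eigenspace S e) (Module.End.eigenspace S f) := by
    intro e f he hf hef h1 h2
    have hdis : Disjoint (Module.End.eigenspace S e) (Module.End.eigenspace S f) := by
      rw [Submodule.disjoint_def]
      intro v hv hv'
      rw [Module.End.mem_eigenspace_iff] at hv hv'
      rw [hv] at hv'
      have h3 : (e - f) • v = 0 := by rw [sub_smul, hv', sub_self]
      exact (smul_eq_zero.1 h3).resolve_left (sub_ne_zero.2 hef)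
    refine ⟨⟨hdis, ?_⟩, h1, h2, ?_, ?_, ?_⟩
    · rw [codisjoint_iff]
      apply Submodule.eq_top_of_finrank_eq
      have h3 := Submodule.finrank_sup_add_finrank_inf_eq (Module.End.eigenspace S e)
        (Module.End.eigenspace S f)
      rw [hdis.eq_bot, finrank_bot] at h3
      omega
    · intro v hv w hw
      rw [Module.End.mem_eigenspace_iff] at hv hw
      have h3 : h v (S w) = h (S v) w := by rw [hS, hS']
      have h4 : starRingEnd ℂ f = f := by rw [hf, Complex.conj_ofReal]
      rw [hv, hw, h_smul_right hh, hh.smul_left, h4] at h3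
      have h5 : (e - f) * h v w = 0 := by rw [sub_mul, h3, sub_self]
      exact (mul_eq_zero.1 h5).resolve_left (sub_ne_zero.2 hef)
    · intro v hv w
      rw [Module.End.mem_eigenspace_iff] at hv
      rw [← hS', hv, hh.smul_left, ← he]
    · intro v hv w
      rw [Module.End.mem_eigenspace_iff] at hv
      rw [← hS', hv, hh.smul_left, ← hf]
  have hne : c.re ≠ d.re := by
    intro h0
    apply hcd
    rw [hcr, hdr, h0]
  rcases lt_or_gt_of_ne hne with hlt | hgt
  · exact ⟨c.re, d.re, _, _, hlt, main c d hcr hdr hcd.symm hdim hdim', hEinv c, hEinv d⟩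
  · exact ⟨d.re, c.re, _, _, hgt, main d c hdr hcr hcd hdim' hdim, hEinv d, hEinv c⟩

end Pool.Agent.Q82.SZ
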