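import Pool.Agent.Q82.SZ.Split
import Pool.Agent.Q82.TQ.Gen

set_option autoImplicit false

/-!
# The line bundles on a primitive symplectic torus quotient
-/

namespace Pool.Agent.Q82.SZ

open Pool.Agent.W594.SYZ2 Pool.Agent.W594.SYZ2.TQ Pool.Agent.Y167
open Pool.Agent.TH128.SYZ Pool.Agent.TH735.AQ Pool.Agent.Q82.TQ

variable {V : Type*} [NormedAddCommGroup V] [NormedSpace ℂ V] [FiniteDimensional ℂ V]
  {Γ : Subgroup (V ≃ᵃ[ℂ] V)} {h H : V → V → ℂ}

/-- There is an invariant positive definite hermitian form. -/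
theorem exists_inv_form (hΓ : IsTorusQuotient Γ) :
    ∃ h : V → V → ℂ, IsHermitian h ∧ IsPositiveForm h ∧ IsInvForm Γ h := by
  have := finite_Lin hΓ
  have : Fintype (Lin Γ) := Fintype.ofFinite _
  let e := (Module.finBasis ℂ V).equivFun
  let q : V → V → ℂ := fun x y => ∑ i, e x i * starRingEnd ℂ (e y i)
  let h : V → V → ℂ := fun x y => ∑ g : Lin Γ, q (g.1 x) (g.1 y)
  have hq : IsHermitian q := by
    refine ⟨fun u v w => ?_, fun a v w => ?_, fun v w => ?_⟩
    · simp only [q, map_add, Pi.add_apply, add_mul, Finset.sum_add_distrib]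
    · simp only [q, map_smul, Pi.smul_apply, smul_eq_mul, Finset.mul_sum, mul_assoc]
    · simp only [q, map_sum, map_mul, Complex.conj_conj]
      exact Finset.sum_congr rfl fun i _ => mul_comm _ _
  have hqd : ∀ v, (q v v).re = ∑ i, Complex.normSq (e v i) := by
    intro v
    simp only [q, Complex.mul_conj, Complex.re_sum, Complex.ofReal_re]
  have hq0 : ∀ v, 0 ≤ (q v v).re := by
    intro v
    rw [hqd]
    exact Finset.sum_nonneg fun i _ => Complex.normSq_nonneg _
  have hqp : ∀ v, v ≠ 0 → 0 < (q v v).re := by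
    intro v hv
    rw [hqd]
    apply lt_of_le_of_ne (Finset.sum_nonneg fun i _ => Complex.normSq_nonneg _)
    intro h0
    apply hv
    have h1 := (Finset.sum_eq_zero_iff_of_nonneg fun i _ => Complex.normSq_nonneg (e v i)).1 h0.symm
    apply e.injective
    rw [map_zero]
    funext i
    exact Complex.normSq_eq_zero.1 (h1 i (Finset.mem_univ _))
  refine ⟨h, ⟨fun u v w => ?_, fun a v w => ?_, fun v w => ?_⟩, fun v hv => ?_, ?_⟩
  · simp only [h, map_add, hq.add_left, Finset.sum_add_distrib]
  · simp only [h, map_smul, hq.smul_left, Finset.mul_sum]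
  · simp only [h, map_sum]
    exact Finset.sum_congr rfl fun g _ => hq.symm _ _
  · simp only [h, Complex.re_sum]
    apply Finset.sum_pos (fun g _ => hqp _ ?_) Finset.univ_nonempty
    exact (LinearEquiv.map_ne_zero_iff g.1).2 hv
  · intro γ hγ v w
    simp only [h]
    let k : Lin Γ := ⟨γ.linear, γ, hγ, rfl⟩
    exact Fintype.sum_equiv (Equiv.mulRight k) _ _ fun g => rfl

omit [FiniteDimensional ℂ V] in
theorem neg_herm (hH : IsHermitian H) : IsHermitian (fun v w => -H v w) :=
  ⟨fun u v w => by rw [hH.add_left, neg_add], fun a v w => by rw [hH.smul_left, mul_neg],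
    fun v w => by rw [hH.symm v w, map_neg]⟩

omit [FiniteDimensional ℂ V] in
theorem inv_chern {L : LineBundle Γ} (hc : IsChernForm L H) :
    IsChernForm (Pool.Agent.Q82.TQ.inv L) (fun v w => -H v w) := by
  obtain ⟨hH, F, hF, hFe⟩ := hc
  refine ⟨neg_herm hH, fun v => -F v, hF.neg, fun γ v => ?_⟩
  change ‖(L.e γ v)⁻¹‖ ^ 2 = _
  rw [norm_inv, inv_pow, hFe, ← Real.exp_neg]
  congr 1
  simp only [Complex.neg_re]
  ring

theorem inv_of_chern {L : LineBundle Γ} (hc : IsChernForm L H) : IsInvForm Γ H := by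
  obtain ⟨hH, F, hF, hFe⟩ := hc
  exact fun γ hγ v w => h_inv hH (F := F) ⟨hF, hFe⟩ ⟨γ, hγ⟩ v w

/-- The four types of invariant hermitian forms. -/
theorem types (hΓ : IsPrimitiveSymplectic Γ) (hH : IsHermitian H) (hJ : IsInvForm Γ H) :
    (∀ v w, H v w = 0) ∨ IsPositiveForm H ∨ IsPositiveForm (fun v w => -H v w) ∨
    (∃ K K' : Submodule ℂ V, IsCompl K K' ∧ Module.finrank ℂ V = 2 * Module.finrank ℂ K ∧
      Module.finrank ℂ V = 2 * Module.finrank ℂ K' ∧ K ≠ ⊥ ∧
      (∀ γ ∈ Γ, ∀ v ∈ K, γ.linear v ∈ K) ∧ (∀ γ ∈ Γ, ∀ v ∈ K', γ.linear v ∈ K') ∧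
      (∀ x ∈ K, ∀ y ∈ K', H x y = 0) ∧
      ((∀ x ∈ K, ∀ w, H x w = 0) ∧ ((∀ x ∈ K', x ≠ 0 → 0 < (H x x).re) ∨
        (∀ x ∈ K', x ≠ 0 → (H x x).re < 0)) ∨
      (∀ x ∈ K, x ≠ 0 → (H x x).re < 0) ∧ (∀ x ∈ K', x ≠ 0 → 0 < (H x x).re))) := by
  by_cases hV : ∃ v : V, v ≠ 0
  swap
  · left
    push Not at hV
    intro v w
    rw [hV v]
    exact h_zero_left hH w
  obtain ⟨h, hh, hp, hI⟩ := exists_inv_form hΓ.torus
  rcases split hΓ hV hh hp hI hH hJ with ⟨c, hc⟩ | ⟨a, b, K, K', hab, hs, hK, hK'⟩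
  · rcases lt_trichotomy c 0 with h0 | h0 | h0
    · right; right; left
      intro v hv
      change 0 < (-H v v).re
      rw [hc, Complex.neg_re, Complex.re_ofReal_mul]
      have := hp v hv
      nlinarith
    · left
      intro v w
      rw [hc, h0]
      simp
    · right; left
      intro v hv
      rw [hc, Complex.re_ofReal_mul]
      exact mul_pos h0 (hp v hv)
  · have hLK : ∀ x ∈ K, (H x x).re = a * (h x x).re := fun x hx => by
      rw [hs.left x hx, Complex.re_ofReal_mul]
    have hLK' : ∀ x ∈ K', (H x x).re = b * (h x x).re := fun x hx => by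
      rw [hs.right x hx, Complex.re_ofReal_mul]
    have horth : ∀ x ∈ K, ∀ y ∈ K', H x y = 0 := fun x hx y hy => by
      rw [hs.left x hx, hs.orth x hx y hy, mul_zero]
    have horth' : ∀ x ∈ K', ∀ y ∈ K, H x y = 0 := fun x hx y hy => by
      rw [hH.symm y x, horth y hy x hx, map_zero]
    have hdec : ∀ v : V, ∃ x ∈ K, ∃ y ∈ K', v = x + y := by
      intro v
      have h1 : v ∈ K ⊔ K' := by rw [hs.compl.sup_eq_top]; trivial
      obtain ⟨x, hx, y, hy, he⟩ := Submodule.mem_sup.1 h1
      exact ⟨x, hx, y, hy, he.symm⟩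
    have hdiag : ∀ x ∈ K, ∀ y ∈ K', (H (x + y) (x + y)).re = (H x x).re + (H y y).re := by
      intro x hx y hy
      rw [h_diag_add hH, horth x hx y hy]
      simp
    have hd : ∀ (s : ℝ) (v : V), v ≠ 0 → 0 < s * a → 0 < s * b → 0 < s * (H v v).re := by
      intro s v hv h1 h2
      obtain ⟨x, hx, y, hy, rfl⟩ := hdec v
      rw [hdiag x hx y hy, hLK x hx, hLK' y hy]
      have hx2 : x ≠ 0 → 0 < (h x x).re := hp x
      have hy2 : y ≠ 0 → 0 < (h y y).re := hp y
      have h00 : (h 0 0).re = 0 := by rw [h_zero_left hh]; simp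
      by_cases hx0 : x = 0
      · have hy0 : y ≠ 0 := by
          rintro rfl
          exact hv (by rw [hx0, add_zero])
        rw [hx0, h00]
        have := mul_pos h2 (hy2 hy0)
        nlinarith
      · by_cases hy0 : y = 0
        · rw [hy0, h00]
          have := mul_pos h1 (hx2 hx0)
          nlinarith
        · have e1 := mul_pos h1 (hx2 hx0)
          have e2 := mul_pos h2 (hy2 hy0)
          nlinarith
    have hVpos : 0 < Module.finrank ℂ V := by
      obtain ⟨v, hv⟩ := hV
      have : Nontrivial V := ⟨⟨v, 0, hv⟩⟩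
      exact Module.finrank_pos
    have hKne : K ≠ ⊥ := by
      rintro rfl
      have := hs.dim
      rw [finrank_bot] at this
      omega
    have hKne' : K' ≠ ⊥ := by
      rintro rfl
      have := hs.dim'
      rw [finrank_bot] at this
      omega
    rcases lt_trichotomy a 0 with h0 | h0 | h0
    · rcases lt_trichotomy b 0 with h1 | h1 | h1
      · right; right; left
        intro v hv
        have := hd (-1) v hv (by linarith) (by linarith)
        simp only [Complex.neg_re]
        linarith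
      · right; right; right
        refine ⟨K', K, hs.compl.symm, hs.dim', hs.dim, hKne', hK', hK, horth',
          Or.inl ⟨fun x hx w => ?_, Or.inr fun x hx hx0 => ?_⟩⟩
        · rw [hs.right x hx, h1]; simp
        · rw [hLK x hx]
          have := hp x hx0
          nlinarith
      · right; right; right
        refine ⟨K, K', hs.compl, hs.dim, hs.dim', hKne, hK, hK', horth,
          Or.inr ⟨fun x hx hx0 => ?_, fun x hx hx0 => ?_⟩⟩
        · rw [hLK x hx]
          have := hp x hx0
          nlinarith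
        · rw [hLK' x hx]
          exact mul_pos h1 (hp x hx0)
    · right; right; right
      refine ⟨K, K', hs.compl, hs.dim, hs.dim', hKne, hK, hK', horth,
        Or.inl ⟨fun x hx w => ?_, Or.inl fun x hx hx0 => ?_⟩⟩
      · rw [hs.left x hx, h0]; simp
      · rw [hLK' x hx]
        exact mul_pos (by linarith) (hp x hx0)
    · right; left
      intro v hv
      have := hd 1 v hv (by linarith) (by linarith)
      linarith

end Pool.Agent.Q82.SZ
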